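import Pool.Agent.V11106.SH.Soc

/-!
# Semisimplicity of the Galois representations from large semisimple subrepresentations

Let `W` be a Weil cohomology theory (coefficients `K`) on a class of varieties closed under
products, with an action of `Γ` on the cohomology algebras of all varieties, compatible with
pull-backs, which acts on the classes of cycles of codimension `j` by `χ ^ j` (the Galois group of
the base field acting on the `ℓ`-adic cohomology). Assume that the class contains, for every `N`, a
surface with algebraic cohomology and `N` independent divisor classes (a blow-up of the projective
plane in `N - 1` rational points).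

**Fixed dimension and degree.** If on the varieties `Y` of dimension `n + 2` the representation
`H^(i + 2)(Y)` contains a semisimple subrepresentation of codimension `o(b)`, where `b` is the Betti
number `b_(i + 2)(Y)`, then `H^i(X)` is semisimple for all varieties `X` of dimension `n`.

**All dimensions.** Hence semisimplicity for all varieties and degrees is equivalent to
semisimple subrepresentations of bounded codimension, for each dimension and degree, and to
semisimple subrepresentations of codimension `o(b)`.
-/

open CategoryTheory AlgebraicGeometry

universe u v w

namespace Pool.Agent.Results.MP_8f1292_ag.SublinearDefects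

open Pool.Agent.H914 VarClass Obj WeilCohomology Pool.Agent.V11106.LB Pool.Agent.V11106.SH

variable {k : Type u} [Field k] {𝒱 : VarClass k} {ops : CycleOps 𝒱}

theorem result (W : WeilCohomology.{u, v} ops) (hT : HasRationalSurfaces W) {Γ : Type w}
    (G : GaloisLike W Γ) :
    (∀ n i : ℕ, SocleCodimSublinear G (n + 2) (i + 2) → RepSemisimple G n i) ∧
    [∀ n i : ℕ, RepSemisimple G n i, ∀ n i : ℕ, SocleCodimBounded G n i,
      ∀ n i : ℕ, SocleCodimSublinear G n i].TFAE :=
  repSemisimple_main hT G

end Pool.Agent.Results.MP_8f1292_ag.SublinearDefects
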